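import Pool.Agent.LAT.StmtsC

/-!
# Squad LAT, RDU: reduced representatives
-/

set_option autoImplicit false

open Matrix

namespace Pool.Agent.LAT.H38

theorem rdu_ex {m : ℕ} {B : Matrix (Fin m) (Fin m) ℤ} (hB : IsHNF B) (w : Fin m → ℤ) (t : ℕ)
    (ht : t ≤ m) : ∃ u : Fin m → ℤ, w - u ∈ rows B ∧
      ∀ j : Fin m, m - t ≤ (j : ℕ) → 0 < B j j → 0 ≤ u j ∧ u j < B j j := by
  induction t with
  | zero =>
    refine ⟨w, by rw [sub_self]; exact (rows B).zero_mem, fun j hj => ?_⟩
    have := j.2
    omega
  | succ t ih =>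
    obtain ⟨u, hu, h⟩ := ih (by omega)
    obtain ⟨k, hk⟩ : ∃ k : Fin m, (k : ℕ) = m - (t + 1) := ⟨⟨m - (t + 1), by omega⟩, rfl⟩
    by_cases h0 : 0 < B k k
    · refine ⟨u - (u k / B k k) • B k, ?_, ?_⟩
      · have h1 : w - (u - (u k / B k k) • B k) = (w - u) + (u k / B k k) • B k := by abel
        rw [h1]
        exact (rows B).add_mem hu ((rows B).smul_mem _ (Submodule.subset_span ⟨k, rfl⟩))
      · intro j hj hj0
        by_cases hjk : j = k
        · subst hjk
          have h1 : (u - (u j / B j j) • B j) j = u j % B j j := by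
            rw [Pi.sub_apply, Pi.smul_apply, smul_eq_mul, Int.emod_def, mul_comm (B j j)]
          rw [h1]
          exact ⟨Int.emod_nonneg _ hj0.ne', Int.emod_lt_of_pos _ hj0⟩
        · have h2 : (k : ℕ) ≠ (j : ℕ) := fun h => hjk (Fin.ext h.symm)
          have h3 : k < j := by
            rw [Fin.lt_def]
            omega
          have h1 : (u - (u k / B k k) • B k) j = u j := by
            rw [Pi.sub_apply, Pi.smul_apply, hB.tri k j h3, smul_zero, sub_zero]
          rw [h1]
          exact h j (by omega) hj0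
    · refine ⟨u, hu, fun j hj hj0 => ?_⟩
      by_cases hjk : j = k
      · subst hjk
        exact absurd hj0 h0
      · have h2 : (k : ℕ) ≠ (j : ℕ) := fun h => hjk (Fin.ext h.symm)
        exact h j (by omega) hj0

/-- RDU -/
theorem rdu (hnm : HnmStmt) : RduStmt := by
  intro m B w hB
  obtain ⟨u, hu, h⟩ := rdu_ex hB w m le_rfl
  refine ⟨u, fun j hj => h j (by omega) hj, hu, ?_⟩
  intro u' hu' hw'
  have hx : u' - u ∈ rows B := by
    have h1 : u' - u = (w - u) - (w - u') := by abel
    rw [h1]
    exact (rows B).sub_mem hu hw'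
  have h0 : ∀ j, (u' - u) j = 0 := by
    intro j
    induction j using (wellFounded_gt (α := Fin m)).induction with
    | _ j ih =>
      have hd := (hnm m B hB).1 _ hx j ih
      rcases (hB.nonneg j).eq_or_lt with h1 | h1
      · rw [← h1] at hd
        exact zero_dvd_iff.1 hd
      · refine Int.eq_zero_of_abs_lt_dvd hd ?_
        have h2 := h j (by omega) h1
        have h3 := hu' j h1
        rw [Pi.sub_apply, abs_lt]
        constructor <;> linarith
  funext j
  have := h0 j
  rw [Pi.sub_apply] at this
  linarith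

end Pool.Agent.LAT.H38
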