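import Pool.Agent.LAT.StmtsM

/-!
# Squad LAT, HNM: elements of the row span of a Hermite normal form
-/

set_option autoImplicit false

open Matrix

namespace Pool.Agent.LAT.H38

/-- the last coordinate of a combination of the rows -/
theorem hnm_last {m : ℕ} {B : Matrix (Fin m) (Fin m) ℤ} (hB : IsHNF B) (x : Fin m → ℤ)
    (j : Fin m) (hj : ∀ i, j < i → x i = 0) : (∑ k, x k • B k) j = x j * B j j := by
  rw [Finset.sum_apply, Finset.sum_eq_single j]
  · rw [Pi.smul_apply, smul_eq_mul]
  · intro k _ hk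
    rw [Pi.smul_apply, smul_eq_mul]
    rcases lt_or_gt_of_ne hk with h | h
    · rw [hB.tri k j h, mul_zero]
    · rw [hj k h, zero_mul]
  · intro h
    exact absurd (Finset.mem_univ j) h

theorem hnm_van {m : ℕ} {B : Matrix (Fin m) (Fin m) ℤ} (hB : IsHNF B) (x : Fin m → ℤ)
    (hx : ∀ k, B k k = 0 → x k = 0) (P : Fin m → Prop) (hP : ∀ i j, P i → i < j → P j)
    (h : ∀ i, P i → (∑ k, x k • B k) i = 0) : ∀ i, P i → x i = 0 := by
  intro i
  induction i using (wellFounded_gt (α := Fin m)).induction with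
  | _ i ih =>
    intro hi
    have h1 := hnm_last hB x i fun j hj => ih j hj (hP i j hi hj)
    rw [h i hi] at h1
    rcases mul_eq_zero.1 h1.symm with h2 | h2
    · exact h2
    · exact hx i h2

theorem hnm_ex {m : ℕ} {B : Matrix (Fin m) (Fin m) ℤ} (hB : IsHNF B) (v : Fin m → ℤ)
    (hv : v ∈ rows B) :
    ∃ x : Fin m → ℤ, (∀ k, B k k = 0 → x k = 0) ∧ v = ∑ k, x k • B k := by
  obtain ⟨c, hc⟩ := (Submodule.mem_span_range_iff_exists_fun ℤ).1 hv
  refine ⟨fun k => if B k k = 0 then 0 else c k, fun k hk => if_pos hk, ?_⟩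
  rw [← hc]
  refine Finset.sum_congr rfl fun k _ => ?_
  by_cases hk : B k k = 0
  · have h0 : B k = 0 := funext fun i => hB.zero k hk i
    rw [h0, smul_zero, smul_zero]
  · simp only [if_neg hk]

/-- M_HNM -/
theorem hnm : HnmStmt := by
  intro m B hB
  refine ⟨?_, ?_, fun v hv => hnm_ex hB v hv⟩
  · intro v hv k hk
    obtain ⟨x, hx, rfl⟩ := hnm_ex hB v hv
    have h1 := hnm_van hB x hx (fun i => k < i) (fun i j hi hij => hi.trans hij) hk
    rw [hnm_last hB x k h1]
    exact Dvd.intro_left _ rfl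
  · intro x hx h
    funext i
    exact hnm_van hB x hx (fun _ => True) (fun _ _ _ _ => trivial)
      (fun i _ => by rw [h]; rfl) i trivial

end Pool.Agent.LAT.H38
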